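import Mathlib

open Set Filter Topology Metric
open scoped BoundedContinuousFunction

namespace Pool.Agent.Results.MP_b2b51b_an.NoLim

noncomputable def Alg : Subalgebra ℂ (ℂ →ᵇ ℂ) where
  carrier := {f | DifferentiableOn ℂ f (ball 0 1)}
  mul_mem' := fun hf hg => DifferentiableOn.mul hf hg
  add_mem' := fun hf hg => DifferentiableOn.add hf hg
  algebraMap_mem' := fun r => by
    have : ⇑(algebraMap ℂ (ℂ →ᵇ ℂ) r) = fun _ => r := by ext; simp
    simp only [mem_ofPred_eq, this]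
    exact differentiableOn_const r

lemma Alg_closed : IsClosed (Alg : Set (ℂ →ᵇ ℂ)) := by
  refine IsSeqClosed.isClosed fun u f hu hf => ?_
  have := (BoundedContinuousFunction.tendsto_iff_tendstoUniformly.1 hf).tendstoUniformlyOn
    (s := ball 0 1) |>.tendstoLocallyUniformlyOn
  exact this.differentiableOn (Eventually.of_forall hu) isOpen_ball

instance normOne : NormOneClass Alg := ⟨(norm_one : ‖(1 : ℂ →ᵇ ℂ)‖ = 1)⟩

def NZ (f : ℂ → ℂ) : Prop := ∀ z ∈ sphere (0 : ℂ) 1, f z ≠ 0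

def Sq (f : ℂ → ℂ) : Prop :=
  ∃ g : ℂ → ℂ, ContinuousOn g (sphere 0 1) ∧ ∀ z ∈ sphere (0 : ℂ) 1, g z ^ 2 = f z

def Zr (f : ℂ → ℂ) : Prop := ∃ z ∈ ball (0 : ℂ) (1 / 3), f z = 0

lemma sq_near {f h : ℂ → ℂ} (hf : ContinuousOn f (sphere 0 1)) (hh : ContinuousOn h (sphere 0 1))
    (hs : Sq f) (hlt : ∀ z ∈ sphere (0 : ℂ) 1, ‖h z - f z‖ < ‖f z‖) : NZ h ∧ Sq h := by
  have hf0 : ∀ z ∈ sphere (0 : ℂ) 1, f z ≠ 0 := fun z hz h0 => by
    have := hlt z hz
    rw [h0, norm_zero] at this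
    exact absurd this (not_lt.2 (norm_nonneg _))
  have hsl : ∀ z ∈ sphere (0 : ℂ) 1, h z / f z ∈ Complex.slitPlane := fun z hz => by
    have e : h z / f z = 1 + (h z - f z) / f z := by field_simp [hf0 z hz]; ring
    rw [e]
    apply Complex.mem_slitPlane_of_norm_lt_one
    rw [norm_div, div_lt_one (norm_pos_iff.2 (hf0 z hz))]
    exact hlt z hz
  refine ⟨fun z hz h0 => ?_, ?_⟩
  · have := hlt z hz
    rw [h0, zero_sub, norm_neg] at this
    exact lt_irrefl _ this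
  · obtain ⟨g, hg, hg2⟩ := hs
    refine ⟨fun z => g z * (h z / f z) ^ ((2 : ℕ) : ℂ)⁻¹, hg.mul ?_, fun z hz => ?_⟩
    · exact (hh.div hf hf0).cpow_const hsl
    · rw [mul_pow, hg2 z hz, Complex.cpow_nat_inv_pow _ two_ne_zero]
      field_simp [hf0 z hz]

lemma not_sq_id : ¬ Sq fun z => z := by
  rintro ⟨g, hg, h2⟩
  have hm : ∀ t : ℝ, Complex.exp (t * Complex.I) ∈ sphere (0 : ℂ) 1 := fun t => by simp
  let u : ℝ → ℂ := fun t => g (Complex.exp (t * Complex.I)) * Complex.exp (-(t / 2) * Complex.I)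
  have hu : Continuous u :=
    (hg.comp_continuous (by fun_prop) hm).mul (by fun_prop)
  have hu2 : ∀ t, u t ^ 2 = 1 := fun t => by
    simp only [u]
    rw [mul_pow, h2 _ (hm t), ← Complex.exp_nat_mul, ← Complex.exp_add]
    simp
    ring_nf
    simp
  have hc : u 0 = u (2 * Real.pi) := by
    rcases isPreconnected_univ.eq_one_or_eq_neg_one_of_sq_eq hu.continuousOn
      (fun t _ => hu2 t) with h | h
    · rw [h (mem_univ _), h (mem_univ _)]; rfl
    · rw [h (mem_univ _), h (mem_univ _)]; rfl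
  have e1 : u 0 = g 1 := by simp [u]
  have e2 : u (2 * Real.pi) = -g 1 := by
    simp only [u]
    push_cast
    rw [Complex.exp_two_pi_mul_I]
    have : -(2 * (Real.pi : ℂ) / 2) * Complex.I = -(Real.pi * Complex.I) := by ring
    rw [this, Complex.exp_neg, Complex.exp_pi_mul_I]
    norm_num
  have h1 := h2 1 (by simp)
  have : g 1 = 0 := by
    have : 2 * g 1 = 0 := by linear_combination hc - e1 + e2
    simpa using this
  simp [this] at h1

lemma pos_min {f : ℂ → ℂ} (hf : Continuous f) (c : ℂ) {r : ℝ} (hr : 0 ≤ r)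
    (h : ∀ z ∈ sphere c r, f z ≠ 0) : ∃ m : ℝ, 0 < m ∧ ∀ z ∈ sphere c r, m ≤ ‖f z‖ := by
  obtain ⟨z, hz, h1⟩ := (isCompact_sphere c r).exists_isMinOn
    (NormedSpace.sphere_nonempty.2 hr) hf.norm.continuousOn
  exact ⟨‖f z‖, norm_pos_iff.2 (h z hz), fun w hw => h1 hw⟩

lemma hurwitz {f : ℂ → ℂ} (hc : Continuous f) (hd : DifferentiableOn ℂ f (ball 0 1)) (hn : NZ f)
    (hz : Zr f) : ∃ m : ℝ, 0 < m ∧ ∀ g : ℂ → ℂ, DifferentiableOn ℂ g (ball 0 1) →
      (∀ z, ‖g z - f z‖ < m) → Zr g := by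
  obtain ⟨c, hc1, hc0⟩ := hz
  have hsub : ball (0 : ℂ) (1 / 3) ⊆ ball 0 1 := ball_subset_ball (by norm_num)
  have han := hd.analyticOnNhd isOpen_ball
  have hev : ∀ᶠ z in 𝓝[≠] c, f z ≠ 0 := by
    by_contra hcon
    have hfr : ∃ᶠ z in 𝓝[≠] c, f z = 0 := hcon
    have h1 := han.eqOn_zero_of_preconnected_of_frequently_eq_zero
      (convex_ball 0 1).isPreconnected (hsub hc1) hfr
    have h2 := h1.closure hc continuous_const
    rw [closure_ball _ one_ne_zero] at h2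
    exact hn 1 (by simp) (h2 (by simp))
  rw [eventually_nhdsWithin_iff] at hev
  obtain ⟨r, hr, hr1⟩ := nhds_basis_closedBall.eventually_iff.1
    (hev.and (isOpen_ball.mem_nhds hc1))
  obtain ⟨m, hm, hm1⟩ := pos_min hc c hr.le fun z hz =>
    (hr1 (sphere_subset_closedBall hz)).1 (ne_of_mem_sphere hz hr.ne')
  refine ⟨m / 2, by positivity, fun g hg hgf => ?_⟩
  by_contra hcon
  have hg0 : ∀ z ∈ closedBall c r, g z ≠ 0 := fun z hz h0 => hcon ⟨z, (hr1 hz).2, h0⟩
  have hdi : DifferentiableOn ℂ (fun z => (g z)⁻¹) (closedBall c r) :=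
    (hg.mono fun z hz => hsub (hr1 hz).2).inv hg0
  have hcl : DiffContOnCl ℂ (fun z => (g z)⁻¹) (ball c r) := by
    apply DifferentiableOn.diffContOnCl
    rwa [closure_ball _ hr.ne']
  have h3 := Complex.norm_le_of_forall_mem_frontier_norm_le isBounded_ball hcl (C := (m / 2)⁻¹)
    (z := c) (fun z hz => by
      rw [frontier_ball _ hr.ne'] at hz
      rw [norm_inv]
      apply inv_anti₀ (by positivity)
      have a1 := hm1 z hz
      have a2 := hgf z
      have a3 := norm_sub_norm_le (f z) (g z)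
      rw [norm_sub_rev] at a3
      linarith) (subset_closure (mem_ball_self hr))
  have h4 := hgf c
  rw [hc0, sub_zero] at h4
  rw [norm_inv, inv_le_inv₀ (norm_pos_iff.2 (hg0 c (mem_closedBall_self hr.le))) (by positivity)] at h3
  linarith

def SS : Set Alg := {f | NZ f.1 ∧ (Sq f.1 ∨ Zr f.1)}

lemma pt (f g : Alg) (z : ℂ) : ‖g.1 z - f.1 z‖ ≤ dist g f := by
  rw [← dist_eq_norm]
  exact BoundedContinuousFunction.dist_coe_le_dist z

lemma SS_open : IsOpen SS := by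
  rw [Metric.isOpen_iff]
  rintro f ⟨hn, h⟩
  obtain ⟨m, hm, hm1⟩ := pos_min f.1.continuous 0 zero_le_one hn
  have hnz : ∀ g : Alg, dist g f < m → NZ g.1 := fun g hg z hz h0 => by
    have := pt f g z
    rw [h0, zero_sub, norm_neg] at this
    linarith [hm1 z hz]
  rcases h with h | h
  · refine ⟨m, hm, fun g hg => ⟨hnz g hg, Or.inl ?_⟩⟩
    exact (sq_near f.1.continuous.continuousOn g.1.continuous.continuousOn h fun z hz =>
      ((pt f g z).trans_lt hg).trans_le (hm1 z hz)).2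
  · obtain ⟨m', hm', h1⟩ := hurwitz f.1.continuous f.2 hn h
    refine ⟨min m m', lt_min hm hm', fun g hg => ⟨hnz g (lt_min_iff.1 hg).1, Or.inr ?_⟩⟩
    exact h1 g.1 g.2 fun z => (pt f g z).trans_lt (lt_min_iff.1 hg).2

lemma SS_mul (f g : Alg) (hf : f ∈ SS) (hg : g ∈ SS) : f * g ∈ SS := by
  refine ⟨fun z hz => mul_ne_zero (hf.1 z hz) (hg.1 z hz), ?_⟩
  rcases hf.2 with ⟨u, hu, hu2⟩ | ⟨z, hz, h0⟩
  · rcases hg.2 with ⟨v, hv, hv2⟩ | ⟨z, hz, h0⟩
    · exact Or.inl ⟨fun z => u z * v z, hu.mul hv, fun z hz => by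
        rw [mul_pow, hu2 z hz, hv2 z hz]; rfl⟩
    · exact Or.inr ⟨z, hz, mul_eq_zero_of_right _ h0⟩
  · exact Or.inr ⟨z, hz, mul_eq_zero_of_left h0 _⟩

noncomputable def a0 : ℂ →ᵇ ℂ :=
  BoundedContinuousFunction.ofNormedAddCommGroup (fun z => z / ((max 1 ‖z‖ : ℝ) : ℂ))
    (continuous_id.div (by fun_prop) fun z => by
      have : (0 : ℝ) < max 1 ‖z‖ := lt_max_of_lt_left one_pos
      exact_mod_cast this.ne') 1 fun z => by
      have : (0 : ℝ) < max 1 ‖z‖ := lt_max_of_lt_left one_pos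
      rw [norm_div, Complex.norm_real, Real.norm_eq_abs, abs_of_pos this, div_le_one this]
      exact le_max_right _ _

lemma a0_eq {z : ℂ} (hz : ‖z‖ ≤ 1) : a0 z = z := by
  simp [a0, max_eq_left hz]

noncomputable def a1 : Alg := ⟨a0, differentiableOn_id.congr fun z hz => a0_eq (by
  simpa using (mem_ball_zero_iff.1 hz).le)⟩

lemma a1_pow (n : ℕ) {z : ℂ} (hz : ‖z‖ ≤ 1) : (a1 ^ n).1 z = z ^ n := by
  simp [a1, a0_eq hz]

lemma odd_notMem (k : ℕ) :
    a1 ^ (2 * k + 1) - algebraMap ℂ Alg ((1 / 3) ^ (2 * k + 1)) ∉ SS := by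
  have hv : ∀ z : ℂ, ‖z‖ ≤ 1 → (a1 ^ (2 * k + 1) - algebraMap ℂ Alg ((1 / 3) ^ (2 * k + 1))).1 z
      = z ^ (2 * k + 1) - (1 / 3) ^ (2 * k + 1) := fun z hz => by
    rw [← a1_pow _ hz]; simp
  rintro ⟨-, h | ⟨z, hz, h0⟩⟩
  · have h1 : Sq fun z => z ^ (2 * k + 1) := by
      refine (sq_near (BoundedContinuousFunction.continuous _).continuousOn (by fun_prop) h
        fun z hz => ?_).2
      have hz1 : ‖z‖ = 1 := by simpa using hz
      rw [hv z hz1.le, sub_sub_cancel]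
      have a3 := norm_sub_norm_le (z ^ (2 * k + 1)) ((1 / 3) ^ (2 * k + 1))
      have a4 : ‖(1 / 3 : ℂ) ^ (2 * k + 1)‖ ≤ 1 / 3 := by
        rw [norm_pow, pow_succ]
        have : ‖(1 / 3 : ℂ)‖ = 1 / 3 := by simp
        rw [this]
        have : (1 / 3 : ℝ) ^ (2 * k) ≤ 1 := pow_le_one₀ (by norm_num) (by norm_num)
        linarith
      rw [norm_pow, hz1, one_pow] at a3
      linarith
    obtain ⟨g, hg, hg2⟩ := h1
    refine not_sq_id ⟨fun z => g z / z ^ k, hg.div (by fun_prop) fun z hz => ?_, fun z hz => ?_⟩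
    · exact pow_ne_zero _ (ne_of_mem_sphere hz one_ne_zero)
    · have := ne_of_mem_sphere hz one_ne_zero
      rw [div_pow, hg2 z hz]
      field_simp
      ring
  · have hz1 : ‖z‖ < 1 / 3 := mem_ball_zero_iff.1 hz
    rw [hv z (by linarith), sub_eq_zero] at h0
    have := congrArg norm h0
    rw [norm_pow, norm_pow] at this
    have h2 : ‖(1 / 3 : ℂ)‖ = 1 / 3 := by simp
    rw [h2] at this
    exact (pow_lt_pow_left₀ hz1 (norm_nonneg _) (by omega)).ne this

theorem result : ∃ (A : Type) (_ : NormedRing A) (_ : NormedAlgebra ℂ A) (_ : CompleteSpace A)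
    (_ : NormOneClass A) (S : Set A), IsOpen S ∧ (∀ a ∈ S, ∀ b ∈ S, a * b ∈ S) ∧ S ≠ univ ∧
      ∃ a ∈ S, ¬ ∃ L : ℝ,
        Tendsto (fun n : ℕ => infDist (a ^ n) Sᶜ ^ (1 / (n : ℝ))) atTop (𝓝 L) := by
  have hne : SSᶜ.Nonempty := ⟨_, odd_notMem 0⟩
  refine ⟨Alg, inferInstance, inferInstance, Alg_closed.completeSpace_coe, normOne, SS,
    SS_open, fun a ha b hb => SS_mul a b ha hb, nonempty_compl.1 hne, a1, ⟨fun z hz => ?_,
      Or.inr ⟨0, by simp, a0_eq (by simp)⟩⟩, ?_⟩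
  · have hz1 : ‖z‖ = 1 := by simpa using hz
    show a0 z ≠ 0
    rw [a0_eq hz1.le]
    exact ne_of_mem_sphere hz one_ne_zero
  · rintro ⟨L, hL⟩
    have t1 : Tendsto (fun k : ℕ => 2 * k) atTop atTop :=
      tendsto_atTop_mono (fun k => by simp only [id]; omega) tendsto_id
    have t2 : Tendsto (fun k : ℕ => 2 * k + 1) atTop atTop :=
      tendsto_atTop_mono (fun k => by simp only [id]; omega) tendsto_id
    have b1 : 1 ≤ L := by
      refine ge_of_tendsto' (hL.comp t1) fun k => ?_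
      refine Real.one_le_rpow ((le_infDist hne).2 fun g hg => ?_) (by positivity)
      by_contra hlt
      push Not at hlt
      have := sq_near (f := fun z => z ^ (2 * k)) (h := g.1) (by fun_prop)
        g.1.continuous.continuousOn ⟨fun z => z ^ k, by fun_prop, fun z _ => by ring⟩
        fun z hz => by
          have hz1 : ‖z‖ = 1 := by simpa using hz
          rw [norm_pow, hz1, one_pow, ← a1_pow _ hz1.le]
          exact (pt _ _ z).trans_lt (by rwa [dist_comm])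
      exact hg ⟨this.1, Or.inl this.2⟩
    have b2 : L ≤ 1 / 3 := by
      refine le_of_tendsto' (hL.comp t2) fun k => ?_
      have h1 : infDist (a1 ^ (2 * k + 1)) SSᶜ ≤ (1 / 3) ^ (2 * k + 1) := by
        refine (infDist_le_dist_of_mem (odd_notMem k)).trans ?_
        rw [dist_eq_norm, sub_sub_cancel, norm_algebraMap', norm_pow]
        simp
      refine (Real.rpow_le_rpow infDist_nonneg h1 (by positivity)).trans ?_
      rw [one_div ((2 * k + 1 : ℕ) : ℝ), Real.pow_rpow_inv_natCast (by norm_num) (by omega)]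
    linarith

end Pool.Agent.Results.MP_b2b51b_an.NoLim
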